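import Pool.Agent.H953R2.EC.Curves
import Pool.Agent.H953R2.EC.Complete

/-!
The quotient of complex 3-space by the integral Heisenberg group is an elliptically connected
complete Kaehler manifold whose fundamental group is not almost abelian.
-/

set_option autoImplicit false

open scoped Manifold ContDiff
open Pool.Agent.H953R2.EC

namespace Pool.Agent.Results.MP_6f2a8f_ag.HeisenbergQuotient

/-- There is a connected complex manifold `X` of dimension three with a complete Kaehler metric
such that any two points of `X` are joined by a chain of three closed holomorphically embedded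
punctured lines, and such that no fundamental group of `X` is almost abelian. -/
theorem result : ∃ (X : Type) (_ : TopologicalSpace X) (_ : ChartedSpace (ℂ × ℂ × ℂ) X),
    T2Space X ∧ SecondCountableTopology X ∧ ConnectedSpace X ∧
    IsManifold 𝓘(ℂ, ℂ × ℂ × ℂ) ω X ∧
    (∃ φ : X → ℝ, IsCompleteKahlerPotential (E := ℂ × ℂ × ℂ) φ) ∧
    ChainConnected (ℂ × ℂ × ℂ) X ∧
    ∀ x : X, ¬ AlmostAbelian (FundamentalGroup X x) :=
  ⟨HX, inferInstance, inferInstance, inferInstance, inferInstance, inferInstance, inferInstance,
    ⟨potX, complete_potX⟩, chain_HX, fund_HX⟩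

end Pool.Agent.Results.MP_6f2a8f_ag.HeisenbergQuotient
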